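import Pool.Agent.P8H71.SK.Stm

/-!
# Project SK, package POS: products of positive matrices of determinant one tend to infinity
-/

set_option autoImplicit false

open Set Filter Topology

namespace Pool.Agent.P8H4.SK

open Pool.Agent.P8H71.SK

/-- upper bound for the permanent -/
theorem perm_le {d : ℕ} (M : Matrix (Fin d) (Fin d) ℝ) (K : ℝ) (h : ∀ i j, |M i j| ≤ K) :
    M.permanent ≤ (Nat.factorial d : ℝ) * K ^ d := by
  unfold Matrix.permanent
  have h1 : ∀ σ : Equiv.Perm (Fin d), ∏ i, M (σ i) i ≤ K ^ d := by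
    intro σ
    calc ∏ i, M (σ i) i ≤ |∏ i, M (σ i) i| := le_abs_self _
      _ = ∏ i, |M (σ i) i| := Finset.abs_prod _ _
      _ ≤ ∏ _i : Fin d, K := Finset.prod_le_prod (fun _ _ => abs_nonneg _) fun i _ => h _ _
      _ = K ^ d := by simp
  calc ∑ σ : Equiv.Perm (Fin d), ∏ i, M (σ i) i ≤ ∑ _σ : Equiv.Perm (Fin d), K ^ d :=
        Finset.sum_le_sum fun σ _ => h1 σ
    _ = (Nat.factorial d : ℝ) * K ^ d := by
        rw [Finset.sum_const, Finset.card_univ, Fintype.card_perm, Fintype.card_fin, nsmul_eq_mul]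

theorem pos : S_PER → S_POS := by
  rintro ⟨hP1, hP2⟩ d hd Y T φ hfin hpos y C
  obtain ⟨A0, hA0, hmin⟩ := hfin.toFinset.exists_min_image (fun A : SLd d => A.1.permanent)
    ⟨φ y, by simp⟩
  obtain ⟨y0, rfl⟩ : ∃ y0, φ y0 = A0 := by simpa using hA0
  set c : ℝ := (φ y0).1.permanent with hc
  have hc1 : 1 < c := hP2 d hd _ (hpos y0) (φ y0).2
  have hmin' : ∀ z, c ≤ (φ z).1.permanent := fun z => hmin (φ z) (by simp)
  have key : ∀ n : ℕ, (∀ i j, 0 ≤ (coc T φ n y).1 i j) ∧ c ^ n ≤ (coc T φ n y).1.permanent := by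
    intro n
    induction n with
    | zero =>
      refine ⟨fun i j => ?_, ?_⟩
      · show (0 : ℝ) ≤ (1 : Matrix (Fin d) (Fin d) ℝ) i j
        rw [Matrix.one_apply]
        split_ifs <;> norm_num
      · show c ^ 0 ≤ (1 : Matrix (Fin d) (Fin d) ℝ).permanent
        rw [Matrix.permanent_one, pow_zero]
    | succ n ih =>
      obtain ⟨h1, h2⟩ := ih
      have e : (coc T φ (n + 1) y).1 = (φ (T^[n] y)).1 * (coc T φ n y).1 := rfl
      refine ⟨fun i j => ?_, ?_⟩
      · rw [e, Matrix.mul_apply]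
        exact Finset.sum_nonneg fun k _ => mul_nonneg (hpos _ _ _).le (h1 _ _)
      · rw [e, pow_succ']
        refine le_trans ?_ (hP1 d _ _ (fun i j => (hpos (T^[n] y) i j).le) h1)
        exact mul_le_mul (hmin' _) h2 (by positivity) (by linarith [hmin' (T^[n] y)])
  have hlim := (tendsto_pow_atTop_atTop_of_one_lt hc1).eventually_gt_atTop
    ((Nat.factorial d : ℝ) * (max C 0) ^ d)
  filter_upwards [hlim] with n hn
  by_contra hcon
  push Not at hcon
  have h1 := perm_le (coc T φ n y).1 (max C 0) fun i j => (hcon i j).trans (le_max_left _ _)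
  have h2 := (key n).2
  linarith

end Pool.Agent.P8H4.SK
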